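import Pool.Agent.H67.PI.Emb

/-!
Every finitely generated associative PI algebra over any field embeds into a 2-generated
associative PI algebra over the same field.

Proof: let `B` be generated by `a 0, ..., a (k-1)` and let `C` be the unitization of `B`. In the
algebra of `N × N` matrices over `C`, `N = 4 k + 20`, take the cyclic permutation matrix `x` and the
diagonal matrix `y` with entries `1, 1, 1` at the places `0, 1, 3` and `a j` at the place `4 j + 8`.
The algebra (without unit) generated by `x` and `y` contains all `(a j) e_00`, hence the corner
`B e_00`, which is a copy of `B`. Matrices over `C` satisfy a multilinear identity, hence so does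
this 2-generated algebra.
-/

set_option autoImplicit false

namespace Pool.Agent.Results.MP_e0d88d_al.AssociativeTwoGenerated

open Pool.Agent.H67.PI

universe u v

/-- An associative algebra `A` over a field `F` (not assumed unital) is PI: some nonzero
noncommutative polynomial `f` with zero constant term vanishes on `A`. (It is evaluated in the
algebra `F ⊕ A` obtained by adjoining a unit.) -/
def IsPI (F : Type u) [Field F] (A : Type v) [NonUnitalRing A] [Module F A]
    [IsScalarTower F A A] [SMulCommClass F A A] : Prop :=
  ∃ (n : ℕ) (f : FreeAlgebra F (Fin n)), f ≠ 0 ∧ FreeAlgebra.algebraMapInv f = 0 ∧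
    ∀ a : Fin n → A,
      FreeAlgebra.lift F (fun i => (Unitization.inr (a i) : Unitization F A)) f = 0

/-- The associative algebra `A` (not assumed unital) is generated by some `k` of its elements. -/
def IsGeneratedBy (F : Type u) [Field F] (A : Type v) [NonUnitalRing A] [Module F A]
    [IsScalarTower F A A] [SMulCommClass F A A] (k : ℕ) : Prop :=
  ∃ a : Fin k → A, NonUnitalAlgebra.adjoin F (Set.range a) = ⊤

/-- Let `F` be a field and `B` an associative PI algebra over `F` (not assumed unital) generated
by `k` of its elements. Then there are an associative PI algebra `M` over `F` generated by two of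
its elements and an injective algebra homomorphism `B → M`. -/
theorem result (F : Type u) [Field F] (B : Type v) [NonUnitalRing B] [Module F B]
    [IsScalarTower F B B] [SMulCommClass F B B] (hB : IsPI F B) (k : ℕ)
    (hk : IsGeneratedBy F B k) :
    ∃ (M : Type (max u v)) (_ : NonUnitalRing M) (_ : Module F M) (_ : IsScalarTower F M M)
      (_ : SMulCommClass F M M), IsPI F M ∧ IsGeneratedBy F M 2 ∧
      ∃ φ : B →ₙₐ[F] M, Function.Injective φ := by
  classical
  obtain ⟨n, f, hf, -, hfB⟩ := hB
  obtain ⟨a, ha⟩ := hk
  set N : ℕ := 4 * k + 20 with hN
  have : NeZero N := ⟨by omega⟩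
  obtain ⟨m, α, hm, hα, hMα⟩ := unitization_matrix f hf hfB (ZMod N)
  let R := Matrix (ZMod N) (ZMod N) (Unitization F B)
  let a' : ℕ → Unitization F B := fun j => if hj : j < k then Unitization.inr (a ⟨j, hj⟩) else 0
  let x : R := P (Unitization F B) N 1
  let y : R := Matrix.diagonal (h N a')
  let S : NonUnitalSubalgebra F R := NonUnitalAlgebra.adjoin F ({x, y} : Set R)
  have hx : x ∈ S := NonUnitalAlgebra.subset_adjoin F (by simp)
  have hy : y ∈ S := NonUnitalAlgebra.subset_adjoin F (by simp)
  let ψ : B →ₙₐ[F] R :=
    { toFun := fun b => Matrix.single 0 0 (Unitization.inr b)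
      map_smul' := by
        intro t b
        rw [Unitization.inr_smul]
        exact (Matrix.smul_single t 0 0 _).symm
      map_zero' := by simp
      map_add' := by
        intro b b'
        rw [Unitization.inr_add, Matrix.single_add]
      map_mul' := by
        intro b b'
        rw [Unitization.inr_mul, Matrix.single_mul_single_same] }
  have hψinj : Function.Injective ψ := by
    intro b b' hbb
    have h1 := congrArg (fun X : R => X 0 0) hbb
    have h2 : (Unitization.inr b : Unitization F B) = Unitization.inr b' := by
      simpa [ψ] using h1
    exact Unitization.inr_injective h2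
  have hgen : ∀ j : Fin k, ψ (a j) ∈ S := by
    intro j
    have h3 := assoc_gen F (N := N) (by omega) (by omega) a' S hx hy j.val (by omega)
    have h4 : a' j.val = Unitization.inr (a j) := by simp [a']
    rw [h4] at h3
    exact h3
  have hψS : ∀ b : B, ψ b ∈ S := by
    intro b
    have h1 : NonUnitalAlgebra.adjoin F (Set.range a) ≤ S.comap ψ := by
      rw [NonUnitalAlgebra.adjoin_le_iff]
      rintro _ ⟨j, rfl⟩
      exact hgen j
    exact h1 (by rw [ha]; trivial)
  refine ⟨S, inferInstance, inferInstance, inferInstance, inferInstance, ?_, ?_, ?_⟩
  · exact ⟨m, mlp α, mlp_ne_zero α hα, mlp_const hm α, fun b => mlp_sub S hm α hMα b⟩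
  · exact adjoin_two x y
  · refine ⟨NonUnitalAlgHom.codRestrict ψ S hψS, ?_⟩
    intro b b' hbb
    exact hψinj (congrArg Subtype.val hbb)

end Pool.Agent.Results.MP_e0d88d_al.AssociativeTwoGenerated
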